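import Mathlib
import Pool.Agent.R496.SE.Def

namespace Pool.Agent.Results.MP_fe632d_an.AllCompacts

open MeasureTheory R496.SupportExpansion

/-- **When the algebra contains all compact operators (Q2).** For a finitely decomposable measure
space whose pieces are standard Borel, every compact operator lies in `C*_u(X, V_μ)` if and only if
`μ` is atomless or purely atomic. In particular every compact operator on `L²(ℝ)` lies in
`C*_u(ℝ, V_μ)`, `μ` the Lebesgue measure. -/
theorem result.{u, v} :
    (∀ (X : Type u) (I : Type v) [MeasurableSpace X] (μ : Measure X) (P : I → Set X),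
      FinitelyDecomposable μ P → (∀ i, StandardBorelSpace (P i)) →
      ((∀ k : Op μ, IsCompactOperator k → k ∈ CuAlg μ) ↔
        ((∀ x, μ {x} = 0) ∨ ∀ A, MeasurableSet A → μ A ≠ 0 → ∃ x ∈ A, μ {x} ≠ 0))) ∧
    (∀ k : Op (volume : Measure ℝ),
      IsCompactOperator k → k ∈ CuAlg (volume : Measure ℝ)) :=
  ⟨fun _ _ _ _ _ hP hst => q2 hP hst, real_case⟩

end Pool.Agent.Results.MP_fe632d_an.AllCompacts
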