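import Mathlib
import Pool.Agent.R496.SE.Def

namespace Pool.Agent.Results.MP_fe632d_an.NonzeroCompact

open MeasureTheory R496.SupportExpansion

/-- **A nonzero compact operator always exists (Q1).** For every nonzero finitely decomposable
measure space whose pieces are standard Borel, `C*_u(X, V_μ)` contains a nonzero compact
operator. -/
theorem result.{u, v} :
    ∀ (X : Type u) (I : Type v) [MeasurableSpace X] (μ : Measure X) (P : I → Set X),
      FinitelyDecomposable μ P → (∀ i, StandardBorelSpace (P i)) → μ ≠ 0 →
      ∃ k : Op μ, k ∈ CuAlg μ ∧ IsCompactOperator k ∧ k ≠ 0 :=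
  fun _ _ _ _ _ hP hst hμ => q1 hP hst hμ

end Pool.Agent.Results.MP_fe632d_an.NonzeroCompact
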